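import Pool.Agent.Lib.MP_2d4659_gt.EX.Final
import Pool.Agent.Lib.MP_2d4659_gt.FP.H8

/-!
# Integral ladders over free products of cyclic groups

`G = Gp m` is the free product of the cyclic groups of orders `m j`, `j : J` (`0` means infinite), with
generators `a_j = gen m j`, and `R = ℤ[G]`.  The complexes considered are `R^n → R^(J + Y) → R → ℤ`, with
one basis element in degree one for every `a_j` and for every one of the further elements `w y` of `G`,
`y : Y`; the map in degree one is `bd1 ℤ (gX m w)`, which sends `e_x` to `x - 1`.  `IsBd2 ℤ g d` says that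
the image of `d` is the kernel of `bd1 ℤ g`; so every 2-complex with fundamental group `G` and this
1-skeleton (the 1-cells represent the `a_j` and the `w y`) has such a `d` as its second boundary map.
`LadderIso ℤ d d'` says that `d = d' h` for an automorphism `h` of `R^n`.

If `G` has no infinite factor, or the number of rows is not the minimal one, or all finite orders are
two, then any two such `d`, `d'` differ by an automorphism of `R^n`. In all other cases this is false
(if `Y` is not empty).
-/

set_option autoImplicit false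

namespace Pool.Agent.Results.MP_2d4659_gt.IntegralLadders

open FP

theorem result {J Y n : Type} [Fintype J] [Nonempty J] [Fintype Y] [Fintype n] (m : J → ℕ)
    (hm : ∀ j, m j ≠ 1) (w : Y → Gp m) :
    (((∀ j, m j ≠ 0) ∨
        Fintype.card n + Fintype.card {j : J // m j = 0} ≠ Fintype.card J + Fintype.card Y ∨
        ∀ j, m j = 0 ∨ m j = 2) →
      ∀ d d' : (n → RG ℤ m) →ₗ[RG ℤ m] (J ⊕ Y → RG ℤ m),
        IsBd2 ℤ (gX m w) d → IsBd2 ℤ (gX m w) d' → LadderIso ℤ d d') ∧
    (Nonempty Y →
      (∀ d d' : (n → RG ℤ m) →ₗ[RG ℤ m] (J ⊕ Y → RG ℤ m),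
        IsBd2 ℤ (gX m w) d → IsBd2 ℤ (gX m w) d' → LadderIso ℤ d d') →
      ((∀ j, m j ≠ 0) ∨
        Fintype.card n + Fintype.card {j : J // m j = 0} ≠ Fintype.card J + Fintype.card Y ∨
        ∀ j, m j = 0 ∨ m j = 2)) := by
  refine ⟨fun hyp d d' hd hd' => positive hm w hyp hd hd', fun hY hall => ?_⟩
  by_contra h
  push Not at h
  obtain ⟨⟨j0, h0⟩, hn, ⟨j1, h1, h2⟩⟩ := h
  obtain ⟨D, D', -, hD, hD', -, -, hno, -⟩ :=
    ExoGen.final_theorem ⟨j0, h0⟩ ⟨j1, by have := hm j1; omega⟩ w hn
  exact hno (hall _ _ (hD ℤ).1 (hD' ℤ).1)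

end Pool.Agent.Results.MP_2d4659_gt.IntegralLadders
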